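import Pool.Agent.Lib.Flows.CDC

/-!
Covers by even subgraphs for weights in a long range.
-/

set_option autoImplicit false
set_option linter.unusedSectionVars false

namespace Pool.Agent.Flows

open Finset

variable {V E : Type} [Fintype V] [DecidableEq V] [Fintype E] [DecidableEq E]

namespace MG

lemma eight_sum : ∀ t a b c : ZMod 2, ∑ s : ZMod 2 × ZMod 2 × ZMod 2,
    (if t + s.1 * a + s.2.1 * b + s.2.2 * c = 1 then (1 : ℤ) else 0) =
      if a = 1 ∨ b = 1 ∨ c = 1 then 4 else if t = 1 then 8 else 0 := by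
  decide +kernel

/-- Eight translates of one even subgraph. -/
lemma eight_cosets {G : MG V E} {D : Finset E} (h1 : (G.del D).Bridgeless) (h2 : G.Spans Dᶜ)
    (t : E → ZMod 2) : (fun e => if e ∈ D then (if t e = 1 then 8 else 0) else 4) ∈ G.Cov := by
  obtain ⟨X, hX, hXt⟩ := exists_flow_ext h2 t
  obtain ⟨W, hW, hW1⟩ := eight_flow _ h1
  let W' : Fin 3 → E → ZMod 2 := fun a e => if e ∈ D then 0 else W a e
  have hW' : ∀ a, G.IsFlow (W' a) := fun a => (hW a).of_del
  have := AddSubmonoid.sum_mem G.Cov (t := univ) fun (s : ZMod 2 × ZMod 2 × ZMod 2) _ =>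
    ind_mem (((hX.add ((hW' 0).smul s.1)).add ((hW' 1).smul s.2.1)).add ((hW' 2).smul s.2.2))
  convert this using 1
  ext e
  rw [Finset.sum_apply]
  simp only [ind, Pi.add_apply, Pi.smul_apply, smul_eq_mul]
  rw [eight_sum]
  by_cases he : e ∈ D
  · simp [W', he, hXt e (by simpa using he)]
  · have := hW1 e
    simp only [Fin.exists_fin_succ, IsEmpty.exists_iff, or_false] at this
    simp only [W', he, if_false]
    rw [if_pos (by simpa using this)]

lemma block4 {G : MG V E} (h3 : G.Three) (σ : E → ℕ) (hσ : ∀ e, σ e ≤ 2) :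
    (fun e => 32 + 4 * (σ e : ℤ)) ∈ G.Cov := by
  obtain ⟨cl, hcl⟩ := nine_classes G h3
  have := AddSubmonoid.sum_mem G.Cov (t := univ) fun (i : Fin 3 × Fin 3) _ =>
    eight_cosets (D := univ.filter fun e => cl e = i ∧ σ e ≠ 1)
      (hcl i _ fun e he => (mem_filter.1 he).2.1).1 (hcl i _ fun e he => (mem_filter.1 he).2.1).2
      (fun e => if σ e = 2 then 1 else 0)
  convert this using 1
  ext e
  rw [Finset.sum_apply, ← add_sum_erase _ _ (mem_univ (cl e)),
    sum_congr rfl (g := fun _ => (4 : ℤ))]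
  · have := hσ e
    have h : σ e = 0 ∨ σ e = 1 ∨ σ e = 2 := by omega
    rcases h with h | h | h <;> simp [h]
  · intro i hi
    have : cl e ≠ i := (mem_erase.1 hi).1.symm
    simp [this]

lemma block2 {G : MG V E} (h3 : G.Three) (ε : E → ℕ) (hε : ∀ e, ε e ≤ 1) :
    (fun e => 16 + 2 * (ε e : ℤ)) ∈ G.Cov := by
  obtain ⟨cl, hcl⟩ := nine_classes G h3
  have := AddSubmonoid.sum_mem G.Cov (t := univ) fun (i : Fin 3 × Fin 3) _ =>
    cov_of_del (cdc (G.del (univ.filter fun e => cl e = i ∧ ε e = 0))
      (hcl i _ fun e he => (mem_filter.1 he).2.1).1)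
  convert this using 1
  ext e
  rw [Finset.sum_apply, ← add_sum_erase _ _ (mem_univ (cl e)),
    sum_congr rfl (g := fun _ => (2 : ℤ))]
  · have := hε e
    have h : ε e = 0 ∨ ε e = 1 := by omega
    rcases h with h | h <;> simp [h]
  · intro i hi
    have : cl e ≠ i := (mem_erase.1 hi).1.symm
    simp [this]

lemma even_range {G : MG V E} (h3 : G.Three) (k l : ℕ) (q : E → ℕ) (hq : ∀ e, q e ≤ 4 * k + 1) :
    (fun e => 32 * (k : ℤ) + 16 + 2 * l + 2 * (q e : ℤ)) ∈ G.Cov := by
  induction k generalizing q with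
  | zero =>
    have := add_mem (block2 h3 q (by simpa using hq))
      (AddSubmonoid.nsmul_mem _ (cdc G fun X => (h3 X).1) l)
    convert this using 1
    ext e; simp; ring
  | succ k ih =>
    have := add_mem (ih (fun e => q e - 2 * min 2 (q e / 2)) fun e => by have := hq e; omega)
      (block4 h3 (fun e => min 2 (q e / 2)) fun e => min_le_left _ _)
    convert this using 1
    ext e
    simp only [Pi.add_apply]
    omega

/-- The range theorem for covers by even subgraphs. -/
theorem range_cov (k l : ℕ) (G : MG V E) (p : E → ℤ) (h1 : G.Bridgeless)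
    (h2 : ∀ X e f, e ≠ f → G.cut X = {e, f} → p e = p f) (h0 : G.IsFlow fun e => (p e : ZMod 2))
    (hp : ∀ e, 32 * (k : ℤ) + 16 + 2 * l ≤ p e ∧ p e ≤ 40 * k + 19 + 2 * l) : p ∈ G.Cov := by
  induction hn : G.nonLoops.card using Nat.strong_induction_on generalizing G with
  | _ n ih =>
    by_cases h3 : G.Three
    · have := add_mem (even_range h3 k l (fun e => ((p e - (32 * k + 16 + 2 * l)) / 2).toNat)
        fun e => by have := hp e; omega) (ind_mem h0)
      convert this using 1
      ext e
      have := hp e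
      simp only [Pi.add_apply, ind]
      by_cases h : (p e : ZMod 2) = 1
      · rw [if_pos h]
        have := ZMod.intCast_eq_one_iff_odd.1 h
        rw [Int.odd_iff] at this
        omega
      · rw [if_neg h]
        rw [ZMod.intCast_eq_one_iff_odd, Int.odd_iff] at h
        omega
    · simp only [Three, not_forall, not_and, not_not] at h3
      obtain ⟨Z, hZ⟩ := h3
      obtain ⟨e, f, hef, hZ⟩ := card_eq_two.1 (hZ (h1 Z))
      have := cov_lift hef hZ (ih _
        (hn ▸ card_nonLoops_con G (e := e) (X := Z) (by rw [hZ]; simp)) (G.con e)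
        (fun X => by obtain ⟨Y, hY⟩ := cut_con G e X; rw [hY]; exact h1 Y)
        (fun X => by obtain ⟨Y, hY⟩ := cut_con G e X; rw [hY]; exact h2 Y)
        (fun X => by obtain ⟨Y, hY⟩ := cut_con G e X; rw [hY]; exact h0 Y) rfl)
      convert this using 1
      ext g
      by_cases hg : g = e
      · rw [if_pos hg, hg, h2 Z e f hef hZ]
      · rw [if_neg hg]

end MG

end Pool.Agent.Flows
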