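import Pool.Agent.Lib.Flows.Trees

/-!
Colouring the links of a rooted spanning set with three colours, the partition of the edges into
nine classes whose removal leaves no bridge, and nowhere-zero flows with values in `(ZMod 2)^3`.
-/

set_option autoImplicit false
set_option linter.unusedSectionVars false

namespace Pool.Agent.Flows

open Finset

variable {V E : Type} [Fintype V] [DecidableEq V] [Fintype E] [DecidableEq E]

namespace MG

lemma laminar (G : MG V E) (R : Finset V) (H : Finset E)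
    (hH : ∀ X : Finset V, X.Nonempty → Disjoint X R → ∃ e ∈ G.cut X, e ∈ H)
    {X Y : Finset V} (hX : Disjoint X R) (hY : Disjoint Y R)
    (cX : (G.cut X ∩ H).card = 1) (cY : (G.cut Y ∩ H).card = 1) (hne : (X ∩ Y).Nonempty) :
    X ⊆ Y ∨ Y ⊆ X := by
  by_contra hcon
  push Not at hcon
  obtain ⟨e, he⟩ := card_eq_one.1 cX
  obtain ⟨f, hf⟩ := card_eq_one.1 cY
  have he' : ∀ g ∈ H, (g ∈ G.cut X ↔ g = e) := fun g hg => by
    rw [← mem_singleton, ← he, mem_inter]; simp [hg]
  have hf' : ∀ g ∈ H, (g ∈ G.cut Y ↔ g = f) := fun g hg => by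
    rw [← mem_singleton, ← hf, mem_inter]; simp [hg]
  have heH : e ∈ H := (mem_inter.1 (he ▸ mem_singleton_self e)).2
  have hfH : f ∈ H := (mem_inter.1 (hf ▸ mem_singleton_self f)).2
  have key : ∀ Z : Finset V, Z.Nonempty → Disjoint Z R → (∀ g ∈ G.cut Z, g ∈ G.cut X ∨ g ∈ G.cut Y) →
      e ∈ G.cut Z ∨ f ∈ G.cut Z := by
    intro Z h1 h2 h3
    obtain ⟨g, hg, hgH⟩ := hH Z h1 h2
    rcases h3 g hg with h | h
    · left; rwa [← (he' g hgH).1 h]
    · right; rwa [← (hf' g hgH).1 h]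
  have k1 := key (X ∩ Y) hne (hX.mono_left inter_subset_left) (by
    intro g; simp only [mem_cut, mem_inter]; tauto)
  have k2 := key (X \ Y) (sdiff_nonempty.2 hcon.1) (hX.mono_left sdiff_subset) (by
    intro g; simp only [mem_cut, mem_sdiff]; tauto)
  have k3 := key (Y \ X) (sdiff_nonempty.2 hcon.2) (hY.mono_left sdiff_subset) (by
    intro g; simp only [mem_cut, mem_sdiff]; tauto)
  have k4 := key (X ∪ Y) (hne.mono (inter_subset_left.trans subset_union_left))
    (disjoint_union_left.2 ⟨hX, hY⟩) (by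
    intro g; simp only [mem_cut, mem_union]; tauto)
  have e1 := (he' e heH).2 rfl
  have f1 := (hf' f hfH).2 rfl
  by_cases hef : e = f
  · subst hef
    simp only [mem_cut, mem_inter, mem_sdiff] at k1 k2 k3 e1 f1
    grind
  · have e2 : e ∉ G.cut Y := fun h => hef ((hf' e heH).1 h)
    have f2 : f ∉ G.cut X := fun h => hef ((he' f hfH).1 h).symm
    simp only [mem_cut, mem_inter, mem_sdiff, mem_union] at k1 k2 k3 k4 e1 f1 e2 f2
    grind

lemma link_colour (G : MG V E) (𝓛 : Finset (Finset V))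
    (hl : ∀ X ∈ 𝓛, ∀ Y ∈ 𝓛, (X ∩ Y).Nonempty → X ⊆ Y ∨ Y ⊆ X) (L : Finset E) :
    ∃ col : E → Fin 3, ∀ X ∈ 𝓛, 2 ≤ (G.cut X ∩ L).card →
      ∃ e ∈ G.cut X ∩ L, ∃ f ∈ G.cut X ∩ L, col e ≠ col f := by
  classical
  induction L using Finset.strongInduction with
  | H L ih =>
    by_cases hL : L.Nonempty
    swap
    · rw [not_nonempty_iff_eq_empty] at hL
      exact ⟨fun _ => 0, fun X _ h => by simp [hL] at h⟩
    let S : Finset (E × Finset V) := (L ×ˢ insert univ 𝓛).filter fun a =>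
      G.en a.1 false ∈ a.2 ∧ G.en a.1 true ∈ a.2
    have hS : S.Nonempty := by
      obtain ⟨e, he⟩ := hL
      exact ⟨(e, univ), by simp [S, he]⟩
    obtain ⟨⟨P, Y⟩, hPY, hmin⟩ := exists_min_image S (fun a => a.2.card) hS
    simp only [S, mem_filter, mem_product, mem_insert, Prod.forall] at hPY hmin
    obtain ⟨⟨hP, hY⟩, hY0, hY1⟩ := hPY
    obtain ⟨col, hcol⟩ := ih (L.erase P) (erase_ssubset hP)
    have uniq : ∀ (c : Bool) (X1 X2 : Finset V) (Q1 Q2 : E), X1 ∈ 𝓛 → X2 ∈ 𝓛 → X1 ⊆ X2 →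
        G.en P c ∈ X2 → P ∈ G.cut X2 → Q1 ∈ G.cut X1 ∩ L.erase P →
        G.cut X2 ∩ L.erase P = {Q2} → Q1 = Q2 := by
      intro c X1 X2 Q1 Q2 h1 h2 h12 hc hP2 hQ1 hQ2
      by_contra hne
      rw [mem_inter] at hQ1
      have h3 : Q1 ∉ G.cut X2 := fun h => hne (by
        rw [← mem_singleton, ← hQ2]; exact mem_inter.2 ⟨h, hQ1.2⟩)
      have h4 : G.en Q1 false ∈ X2 ∧ G.en Q1 true ∈ X2 := by
        have a1 := @h12 (G.en Q1 false)
        have a2 := @h12 (G.en Q1 true)
        have a3 := hQ1.1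
        simp only [mem_cut] at a3 h3
        tauto
      have h5 := hmin Q1 X2 ⟨⟨mem_of_mem_erase hQ1.2, Or.inr h2⟩, h4⟩
      have h6 : ¬ Y ⊆ X2 := fun h => by
        rw [mem_cut] at hP2
        exact hP2 ⟨fun _ => h hY1, fun _ => h hY0⟩
      have h7 : X2 ⊆ Y := by
        rcases hY with rfl | hY
        · exact subset_univ _
        · refine (hl X2 h2 Y hY ⟨G.en P c, mem_inter.2 ⟨hc, ?_⟩⟩).resolve_right h6
          cases c <;> assumption
      have := card_lt_card (⟨h7, h6⟩ : X2 ⊂ Y)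
      omega
    have hq : ∀ c : Bool, ∃ q : Fin 3, ∀ X ∈ 𝓛, ∀ Q, G.en P c ∈ X → P ∈ G.cut X →
        G.cut X ∩ L.erase P = {Q} → col Q = q := by
      intro c
      by_cases h : ∃ X ∈ 𝓛, ∃ Q, G.en P c ∈ X ∧ P ∈ G.cut X ∧ G.cut X ∩ L.erase P = {Q}
      · obtain ⟨X, hX, Q, h1, h2, h3⟩ := h
        refine ⟨col Q, fun X' hX' Q' h1' h2' h3' => ?_⟩
        rcases hl X hX X' hX' ⟨_, mem_inter.2 ⟨h1, h1'⟩⟩ with h | h
        · rw [uniq c X X' Q Q' hX hX' h h1' h2' (by rw [h3]; simp) h3']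
        · rw [uniq c X' X Q' Q hX' hX h h1 h2 (by rw [h3']; simp) h3]
      · exact ⟨0, fun X hX Q h1 h2 h3 => (h ⟨X, hX, Q, h1, h2, h3⟩).elim⟩
    obtain ⟨q0, hq0⟩ := hq false
    obtain ⟨q1, hq1⟩ := hq true
    obtain ⟨q, hq0', hq1'⟩ :=
      (by decide : ∀ q0 q1 : Fin 3, ∃ q : Fin 3, q ≠ q0 ∧ q ≠ q1) q0 q1
    refine ⟨Function.update col P q, fun X hX h2 => ?_⟩
    have hsub : G.cut X ∩ L.erase P ⊆ G.cut X ∩ L :=
      inter_subset_inter Subset.rfl (erase_subset _ _)
    have hne : ∀ e ∈ G.cut X ∩ L.erase P, e ≠ P := fun e he =>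
      (mem_erase.1 (mem_inter.1 he).2).1
    by_cases h3 : 2 ≤ (G.cut X ∩ L.erase P).card
    · obtain ⟨e, he, f, hf, hef⟩ := hcol X hX h3
      refine ⟨e, hsub he, f, hsub hf, ?_⟩
      rwa [Function.update_of_ne (hne e he), Function.update_of_ne (hne f hf)]
    · have h4 : G.cut X ∩ L.erase P = (G.cut X ∩ L).erase P := by
        ext e; simp only [mem_inter, mem_erase]; tauto
      have h5 : P ∈ G.cut X ∩ L := by
        by_contra h
        rw [h4, erase_eq_of_notMem h] at h3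
        exact h3 h2
      have h6 : (G.cut X ∩ L.erase P).card = 1 := by
        rw [h4, card_erase_of_mem h5] at h3 ⊢
        omega
      obtain ⟨Q, hQ⟩ := card_eq_one.1 h6
      have hQm : Q ∈ G.cut X ∩ L.erase P := by rw [hQ]; simp
      refine ⟨P, h5, Q, hsub hQm, ?_⟩
      rw [Function.update_self, Function.update_of_ne (hne Q hQm)]
      have hPc := (mem_inter.1 h5).1
      by_cases h0 : G.en P false ∈ X
      · rw [hq0 X hX Q h0 hPc hQ]; exact hq0'
      · have h1 : G.en P true ∈ X := by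
          rw [mem_cut] at hPc; tauto
        rw [hq1 X hX Q h1 hPc hQ]; exact hq1'

/-- Nine classes: removing any part of a class leaves a spanning bridgeless graph. -/
theorem nine_classes (G : MG V E) (h3 : G.Three) : ∃ cl : E → Fin 3 × Fin 3,
    ∀ (i : Fin 3 × Fin 3) (D : Finset E), (∀ e ∈ D, cl e = i) →
      (G.del D).Bridgeless ∧ G.Spans Dᶜ := by
  classical
  obtain ⟨R, b, hR, hb⟩ := three_trees G h3
  have hc : ∀ i : Fin 3, ∃ col : E → Fin 3, ∀ X : Finset V, Disjoint X R →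
      (G.cut X ∩ univ.filter fun e => b e ≠ i).card = 1 →
      2 ≤ (G.cut X ∩ univ.filter fun e => b e = i).card →
      ∃ e ∈ G.cut X ∩ univ.filter fun e => b e = i,
        ∃ f ∈ G.cut X ∩ univ.filter fun e => b e = i, col e ≠ col f := by
    intro i
    obtain ⟨col, hcol⟩ := link_colour G (univ.filter fun X : Finset V => Disjoint X R ∧
      (G.cut X ∩ univ.filter fun e => b e ≠ i).card = 1) (by
        intro X hX Y hY hne
        simp only [mem_filter, mem_univ, true_and] at hX hY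
        refine laminar G R _ (fun Z h1 h2 => ?_) hX.1 hY.1 hX.2 hY.2 hne
        obtain ⟨e, he, hb⟩ := hb i Z h1 h2
        exact ⟨e, he, by simpa using hb⟩) (univ.filter fun e => b e = i)
    exact ⟨col, fun X h1 h2 => hcol X (by simp only [mem_filter, mem_univ, true_and]; exact ⟨h1, h2⟩)⟩
  choose col hcol using hc
  refine ⟨fun e => (b e, col (b e) e), fun i D hD => ⟨fun X hX => ?_, fun X hX => ?_⟩⟩
  · rw [cut_del] at hX
    obtain ⟨e, he⟩ := card_eq_one.1 hX
    have he1 : e ∈ G.cut X \ D := by rw [he]; simp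
    obtain ⟨Y, hY1, hY2, hY3⟩ := hR X ⟨e, (mem_sdiff.1 he1).1⟩
    have hDb : ∀ g ∈ D, b g = i.1 := fun g hg => congrArg Prod.fst (hD g hg)
    have hin : ∀ g ∈ G.cut Y, g ≠ e → g ∈ D := by
      intro g hg hge
      by_contra h
      exact hge (by rw [← mem_singleton, ← he]; exact mem_sdiff.2 ⟨hY3 hg, h⟩)
    obtain ⟨e', he', hb'⟩ := hb i.1 Y hY1 hY2
    have hee : e' = e := by
      by_contra h
      exact hb' (hDb _ (hin _ he' h))
    subst hee
    have h1 : (G.cut Y ∩ univ.filter fun e => b e ≠ i.1) = {e'} := by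
      ext g
      simp only [mem_inter, mem_filter, mem_univ, true_and, mem_singleton]
      constructor
      · rintro ⟨h1, h2⟩
        by_contra h
        exact h2 (hDb _ (hin _ h1 h))
      · rintro rfl; exact ⟨he', hb'⟩
    have h2 : (G.cut Y ∩ univ.filter fun e => b e = i.1) = (G.cut Y).erase e' := by
      ext g
      simp only [mem_inter, mem_filter, mem_univ, true_and, mem_erase]
      constructor
      · rintro ⟨h1, h2⟩
        exact ⟨fun h => hb' (h ▸ h2), h1⟩
      · rintro ⟨h1, h2⟩; exact ⟨h2, hDb _ (hin _ h2 h1)⟩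
    obtain ⟨f, hf, g, hg, hfg⟩ := hcol i.1 Y hY2 (by rw [h1]; simp) (by
      rw [h2, card_erase_of_mem he']
      have := h3 Y
      have := card_pos.2 ⟨e', he'⟩
      omega)
    rw [h2, mem_erase] at hf hg
    have a1 := hD f (hin f hf.2 hf.1)
    have a2 := hD g (hin g hg.2 hg.1)
    apply hfg
    have b1 := congrArg Prod.snd a1
    have b2 := congrArg Prod.snd a2
    simp only at b1 b2
    rw [hDb f (hin f hf.2 hf.1)] at b1
    rw [hDb g (hin g hg.2 hg.1)] at b2
    rw [b1, b2]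
  · obtain ⟨Y, hY1, hY2, hY3⟩ := hR X hX
    obtain ⟨e, he, hb'⟩ := hb i.1 Y hY1 hY2
    exact ⟨e, mem_compl.2 fun h => hb' (congrArg Prod.fst (hD e h)), hY3 he⟩

/-- Jaeger's theorem: three even subgraphs cover a bridgeless graph. -/
theorem eight_flow (G : MG V E) (hG : G.Bridgeless) :
    ∃ x : Fin 3 → E → ZMod 2, (∀ a, G.IsFlow (x a)) ∧ ∀ e, ∃ a, x a e = 1 := by
  induction hn : G.nonLoops.card using Nat.strong_induction_on generalizing G with
  | _ n ih =>
    by_cases h3 : G.Three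
    · obtain ⟨R, b, hR, hb⟩ := three_trees G h3
      have : ∀ a : Fin 3, ∃ x : E → ZMod 2, G.IsFlow x ∧ ∀ e, e ∉ univ.filter (fun e => b e ≠ a) → x e = 1 := by
        intro a
        refine exists_flow_ext (fun X hX => ?_) (fun _ => 1)
        obtain ⟨Y, hY1, hY2, hY3⟩ := hR X hX
        obtain ⟨e, he, hb'⟩ := hb a Y hY1 hY2
        exact ⟨e, by simpa using hb', hY3 he⟩
      choose x hx hx1 using this
      exact ⟨x, hx, fun e => ⟨b e, hx1 _ _ (by simp)⟩⟩
    · simp only [Three, not_forall, not_and, not_not] at h3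
      obtain ⟨Z, hZ⟩ := h3
      obtain ⟨e, f, hef, hZ⟩ := card_eq_two.1 (hZ (hG Z))
      obtain ⟨x, hx, hx1⟩ := ih _ (hn ▸ card_nonLoops_con G (e := e) (X := Z) (by rw [hZ]; simp))
        (G.con e) (fun X => by obtain ⟨Y, hY⟩ := cut_con G e X; rw [hY]; exact hG Y) rfl
      exact ⟨fun a g => x a (if g = e then f else g), fun a => (hx a).lift hef hZ,
        fun g => hx1 _⟩

end MG

end Pool.Agent.Flows
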