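import Mathlib

/-!
Multigraphs as maps from half-edges to vertices, cuts, flows mod 2 and covers by even subgraphs.
-/

set_option autoImplicit false
set_option linter.unusedSectionVars false

namespace Pool.Agent.Flows

open Finset

/-- A multigraph: every edge has two half-edges, each attached to a vertex. -/
structure MG (V E : Type) where
  en : E → Bool → V

variable {V E : Type} [Fintype V] [DecidableEq V] [Fintype E] [DecidableEq E]

namespace MG

/-- The edges with exactly one end in `X`. -/
def cut (G : MG V E) (X : Finset V) : Finset E :=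
  univ.filter fun e => ¬ (G.en e false ∈ X ↔ G.en e true ∈ X)

omit [Fintype V] [DecidableEq E] in
lemma mem_cut (G : MG V E) (X : Finset V) (e : E) :
    e ∈ G.cut X ↔ ¬ (G.en e false ∈ X ↔ G.en e true ∈ X) := by
  simp [cut]

/-- A flow with values in an elementary abelian 2-group: the sum over every cut vanishes. -/
def IsFlow {A : Type} [AddCommMonoid A] (G : MG V E) (x : E → A) : Prop :=
  ∀ X : Finset V, ∑ e ∈ G.cut X, x e = 0

/-- The 0-1 integer vector of a vector mod 2. -/
def ind (x : E → ZMod 2) : E → ℤ := fun e => if x e = 1 then 1 else 0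

/-- Sums of incidence vectors of even subgraphs. -/
def Cov (G : MG V E) : AddSubmonoid (E → ℤ) :=
  AddSubmonoid.closure {y | ∃ x, G.IsFlow x ∧ y = ind x}

omit [Fintype V] [DecidableEq E] in
lemma ind_mem {G : MG V E} {x : E → ZMod 2} (hx : G.IsFlow x) : ind x ∈ G.Cov :=
  AddSubmonoid.subset_closure ⟨x, hx, rfl⟩

omit [Fintype V] [DecidableEq E] in
lemma IsFlow.add {A : Type} [AddCommMonoid A] {G : MG V E} {x y : E → A}
    (hx : G.IsFlow x) (hy : G.IsFlow y) : G.IsFlow (x + y) := by
  intro X
  simp [sum_add_distrib, hx X, hy X]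

omit [Fintype V] [DecidableEq E] in
lemma IsFlow.smul {G : MG V E} {x : E → ZMod 2} (c : ZMod 2)
    (hx : G.IsFlow x) : G.IsFlow (c • x) := by
  intro X
  simp [← mul_sum, hx X]

omit [Fintype V] [DecidableEq E] in
lemma IsFlow.sum {A ι : Type} [AddCommMonoid A] {G : MG V E} (s : Finset ι) (x : ι → E → A)
    (hx : ∀ i ∈ s, G.IsFlow (x i)) : G.IsFlow (∑ i ∈ s, x i) := by
  intro X
  simp only [Finset.sum_apply]
  rw [sum_comm]
  exact sum_eq_zero fun i hi => hx i hi X

/-- Transport of covers along an additive map sending generators to covers. -/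
lemma cov_map {V' E' : Type} [DecidableEq V'] [Fintype E'] {G : MG V E} {G' : MG V' E'}
    (φ : (E' → ℤ) →+ (E → ℤ)) (h : ∀ x, G'.IsFlow x → φ (ind x) ∈ G.Cov)
    {y : E' → ℤ} (hy : y ∈ G'.Cov) : φ y ∈ G.Cov := by
  induction hy using AddSubmonoid.closure_induction with
  | mem y hy => obtain ⟨x, hx, rfl⟩ := hy; exact h x hx
  | zero => simp
  | add a b _ _ ha hb => simpa using add_mem ha hb

/-- The boundary of an edge labelling at a vertex: the sum over the half-edges there. -/
def bd {A : Type} [AddCommMonoid A] (G : MG V E) (x : E → A) (w : V) : A :=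
  ∑ a ∈ univ.filter (fun a : E × Bool => G.en a.1 a.2 = w), x a.1

omit [Fintype V] [DecidableEq E] in
lemma sum_bd {A : Type} [AddCommMonoid A] (h2 : ∀ a : A, a + a = 0) (G : MG V E) (x : E → A)
    (X : Finset V) : ∑ w ∈ X, G.bd x w = ∑ e ∈ G.cut X, x e := by
  have h1 : ∑ w ∈ X, G.bd x w
      = ∑ a : E × Bool, if G.en a.1 a.2 ∈ X then x a.1 else 0 := by
    simp only [bd, sum_filter]
    rw [sum_comm]
    refine sum_congr rfl fun a _ => ?_
    simp [sum_ite_eq]
  rw [h1, Fintype.sum_prod_type, cut, sum_filter]
  refine sum_congr rfl fun e _ => ?_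
  by_cases ha : G.en e false ∈ X <;> by_cases hb : G.en e true ∈ X <;> simp [ha, hb, h2]

omit [Fintype V] [DecidableEq E] in
lemma isFlow_iff {A : Type} [AddCommMonoid A] (h2 : ∀ a : A, a + a = 0) (G : MG V E) (x : E → A) :
    G.IsFlow x ↔ ∀ w, G.bd x w = 0 := by
  constructor
  · intro h w
    have := sum_bd h2 G x {w}
    rw [sum_singleton] at this
    rw [this, h]
  · intro h X
    rw [← sum_bd h2]
    exact sum_eq_zero fun w _ => h w

lemma z2 (a : ZMod 2) : a + a = 0 := by revert a; decide

/-- Pairing of a vertex labelling with a boundary. -/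
lemma sum_mul_bd (G : MG V E) (x : E → ZMod 2) (h : V → ZMod 2) :
    ∑ w, h w * G.bd x w = ∑ e, (h (G.en e false) + h (G.en e true)) * x e := by
  have h1 : ∑ w, h w * G.bd x w = ∑ a : E × Bool, h (G.en a.1 a.2) * x a.1 := by
    simp only [bd, sum_filter, mul_sum]
    rw [sum_comm]
    refine sum_congr rfl fun a _ => ?_
    simp [sum_ite_eq]
  rw [h1, Fintype.sum_prod_type]
  refine sum_congr rfl fun e _ => ?_
  simp; ring

/-- Fredholm alternative over the field with two elements. -/
lemma fredholm {M ι : Type} [AddCommGroup M] [Module (ZMod 2) M] [Fintype ι] [DecidableEq ι]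
    (T : M →ₗ[ZMod 2] (ι → ZMod 2)) (y : ι → ZMod 2)
    (h : ∀ c : ι → ZMod 2, (∀ m, ∑ i, c i * T m i = 0) → ∑ i, c i * y i = 0) :
    ∃ m, T m = y := by
  have : y ∈ LinearMap.range T := by
    rw [← Subspace.forall_mem_dualAnnihilator_apply_eq_zero_iff]
    intro φ hφ
    rw [Submodule.mem_dualAnnihilator] at hφ
    have key : ∀ z : ι → ZMod 2, φ z = ∑ i, φ (Pi.single i 1) * z i := by
      intro z
      conv_lhs => rw [← Finset.univ_sum_single z]
      rw [map_sum]
      refine sum_congr rfl fun i _ => ?_
      have : (Pi.single i (z i) : ι → ZMod 2) = z i • (Pi.single i 1 : ι → ZMod 2) := by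
        ext j; by_cases hj : j = i <;> simp [hj]
      rw [this, map_smul, smul_eq_mul, mul_comm]
    rw [key]
    apply h
    intro m
    rw [← key]
    exact hφ _ ⟨m, rfl⟩
  exact this

/-- `H` meets every nonempty cut. -/
def Spans (G : MG V E) (H : Finset E) : Prop :=
  ∀ X, (G.cut X).Nonempty → ∃ e ∈ H, e ∈ G.cut X

/-- Values outside a spanning set can be prescribed. -/
lemma exists_flow_ext {G : MG V E} {H : Finset E} (hH : G.Spans H) (s : E → ZMod 2) :
    ∃ x, G.IsFlow x ∧ ∀ e, e ∉ H → x e = s e := by
  let T : (E → ZMod 2) →ₗ[ZMod 2] (V → ZMod 2) :=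
    { toFun := fun x w => G.bd (fun e => if e ∈ H then x e else 0) w
      map_add' := by
        intro x y; ext w
        simp only [bd, Pi.add_apply, ← sum_add_distrib]
        refine sum_congr rfl fun a _ => ?_
        split_ifs <;> simp
      map_smul' := by
        intro c x; ext w
        simp only [bd, Pi.smul_apply, smul_eq_mul, RingHom.id_apply, mul_sum]
        refine sum_congr rfl fun a _ => ?_
        split_ifs <;> simp }
  obtain ⟨x, hx⟩ := fredholm T (G.bd s) (by
    intro c hc
    rw [sum_mul_bd]
    have hz : ∀ e, c (G.en e false) + c (G.en e true) = 0 := by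
      by_contra hne
      push Not at hne
      obtain ⟨e, he⟩ := hne
      have hv : ∀ a b : ZMod 2, a + b ≠ 0 ↔ ¬ (a = 1 ↔ b = 1) := by decide
      obtain ⟨e', he', hc'⟩ := hH (univ.filter fun w => c w = 1) ⟨e, by simpa [mem_cut, ← hv] using he⟩
      have h1 := hc (Pi.single e' 1)
      simp only [T, LinearMap.coe_mk, AddHom.coe_mk] at h1
      rw [sum_mul_bd, sum_eq_single e'] at h1
      · simp only [he', if_true, Pi.single_eq_same, mul_one] at h1
        have : c (G.en e' false) + c (G.en e' true) ≠ 0 := by
          rw [hv]; simpa [mem_cut] using hc'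
        exact this h1
      · intro b _ hb; simp [hb]
      · simp
    simp [hz])
  refine ⟨(fun e => if e ∈ H then x e else 0) + s, ?_, ?_⟩
  · rw [isFlow_iff z2]
    intro w
    have h1 : G.bd (fun e => if e ∈ H then x e else 0) w = G.bd s w := congrFun hx w
    have h2 : G.bd ((fun e => if e ∈ H then x e else 0) + s) w
        = G.bd (fun e => if e ∈ H then x e else 0) w + G.bd s w := by
      simp [bd, sum_add_distrib]
    rw [h2, h1, z2]
  · intro e he; simp [he]

/-- Deleting edges, realised by turning them into loops. -/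
def del (G : MG V E) (D : Finset E) : MG V E :=
  ⟨fun e b => if e ∈ D then G.en e false else G.en e b⟩

omit [Fintype V] in
lemma cut_del (G : MG V E) (D : Finset E) (X : Finset V) :
    (G.del D).cut X = G.cut X \ D := by
  ext e
  by_cases he : e ∈ D <;> simp [mem_cut, del, he]

omit [Fintype V] in
lemma IsFlow.of_del {A : Type} [AddCommMonoid A] {G : MG V E} {D : Finset E} {x : E → A}
    (hx : (G.del D).IsFlow x) : G.IsFlow (fun e => if e ∈ D then 0 else x e) := by
  intro X
  have := hx X
  rw [cut_del] at this
  rw [sdiff_eq_filter, sum_filter] at this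
  refine Eq.trans (sum_congr rfl fun e _ => ?_) this
  by_cases he : e ∈ D <;> simp [he]

lemma cov_of_del {G : MG V E} {D : Finset E} {y : E → ℤ} (hy : y ∈ (G.del D).Cov) :
    (fun e => if e ∈ D then 0 else y e) ∈ G.Cov := by
  let φ : (E → ℤ) →+ (E → ℤ) :=
    { toFun := fun y e => if e ∈ D then 0 else y e
      map_zero' := by ext e; simp
      map_add' := by intro a b; ext e; by_cases he : e ∈ D <;> simp [he] }
  refine cov_map φ (fun x hx => ?_) hy
  convert ind_mem hx.of_del using 1
  ext e
  by_cases he : e ∈ D <;> simp [φ, ind, he]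

/-- Contracting an edge. -/
def con (G : MG V E) (e : E) : MG V E :=
  ⟨fun f b => if G.en f b = G.en e true then G.en e false else G.en f b⟩

lemma cut_con (G : MG V E) (e : E) (X : Finset V) :
    ∃ Y, (G.con e).cut X = G.cut Y := by
  refine ⟨univ.filter fun w => (if w = G.en e true then G.en e false else w) ∈ X, ?_⟩
  ext f
  simp [mem_cut, con]

omit [Fintype V] [DecidableEq E] in
lemma cut_con_of_notMem (G : MG V E) (e : E) (X : Finset V) (he : e ∉ G.cut X) :
    (G.con e).cut X = G.cut X := by
  ext f
  simp only [mem_cut, not_not] at he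
  simp only [mem_cut, con]
  have : ∀ w, ((if w = G.en e true then G.en e false else w) ∈ X ↔ w ∈ X) := by
    intro w
    by_cases hw : w = G.en e true
    · simp [hw, he]
    · simp [hw]
  rw [this, this]

/-- The edges that are not loops. -/
def nonLoops (G : MG V E) : Finset E := univ.filter fun e => G.en e false ≠ G.en e true

omit [Fintype V] in
lemma card_nonLoops_con (G : MG V E) {e : E} {X : Finset V} (he : e ∈ G.cut X) :
    (G.con e).nonLoops.card < G.nonLoops.card := by
  apply card_lt_card
  constructor
  · intro f hf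
    simp only [nonLoops, con, mem_filter, mem_univ, true_and] at hf ⊢
    intro h; apply hf; rw [h]
  · intro h
    have h1 : e ∈ G.nonLoops := by
      simp only [nonLoops, mem_filter, mem_univ, true_and]
      intro h; rw [mem_cut, h] at he; simp at he
    have := h h1
    simp [nonLoops, con] at this

omit [Fintype V] in
lemma cut_symmDiff (G : MG V E) (X Y : Finset V) :
    G.cut (symmDiff X Y) = symmDiff (G.cut X) (G.cut Y) := by
  ext e
  simp only [mem_cut, mem_symmDiff]
  tauto

omit [Fintype V] in
/-- Lifting a flow through the contraction of an edge of a 2-edge-cut. -/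
lemma IsFlow.lift {G : MG V E} {e f : E} {Z : Finset V} (hef : e ≠ f) (hZ : G.cut Z = {e, f})
    {x : E → ZMod 2} (hx : (G.con e).IsFlow x) :
    G.IsFlow (fun g => x (if g = e then f else g)) := by
  have easy : ∀ X, e ∉ G.cut X → ∑ g ∈ G.cut X, x (if g = e then f else g) = 0 := by
    intro X he
    have := hx X
    rw [cut_con_of_notMem G e X he] at this
    rw [← this]
    refine sum_congr rfl fun g hg => ?_
    have : g ≠ e := fun h => he (h ▸ hg)
    simp [this]
  intro X
  by_cases he : e ∈ G.cut X
  · have h1 : e ∉ G.cut (symmDiff X Z) := by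
      rw [cut_symmDiff, hZ, mem_symmDiff]; simp [he]
    have h2 := easy _ h1
    rw [cut_symmDiff, hZ] at h2
    have h3 : ∀ (y : E → ZMod 2) (S T : Finset E),
        ∑ g ∈ symmDiff S T, y g = ∑ g ∈ S, y g + ∑ g ∈ T, y g := by
      intro y S T
      have : ∀ S : Finset E, ∑ g ∈ S, y g = ∑ g, if g ∈ S then y g else 0 := by
        intro S; simp [sum_ite_mem]
      rw [this, this S, this T, ← sum_add_distrib]
      refine sum_congr rfl fun g _ => ?_
      by_cases h1 : g ∈ S <;> by_cases h2 : g ∈ T <;> simp [mem_symmDiff, h1, h2, z2]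
    rw [h3, sum_pair hef] at h2
    simpa [hef.symm, z2] using h2
  · exact easy X he

lemma cov_lift {G : MG V E} {e f : E} {Z : Finset V} (hef : e ≠ f) (hZ : G.cut Z = {e, f})
    {y : E → ℤ} (hy : y ∈ (G.con e).Cov) : (fun g => y (if g = e then f else g)) ∈ G.Cov := by
  let φ : (E → ℤ) →+ (E → ℤ) :=
    { toFun := fun y g => y (if g = e then f else g)
      map_zero' := by ext e; simp
      map_add' := by intro a b; ext e; simp }
  exact cov_map φ (fun x hx => ind_mem (hx.lift hef hZ)) hy

/-- No cut consists of one edge. -/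
def Bridgeless (G : MG V E) : Prop := ∀ X, (G.cut X).card ≠ 1

/-- No cut consists of one or two edges. -/
def Three (G : MG V E) : Prop := ∀ X, (G.cut X).card ≠ 1 ∧ (G.cut X).card ≠ 2

end MG

end Pool.Agent.Flows
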