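import Pool.Agent.Lib.Flows.Classes

/-!
Double covers of bridgeless graphs by eight even subgraphs (known: the 2026 proof of the cycle
double cover conjecture from a nowhere-zero flow with values in `(ZMod 2)^3`).
-/

set_option autoImplicit false
set_option linter.unusedSectionVars false

namespace Pool.Agent.Flows

open Finset

variable {V E : Type} [Fintype V] [DecidableEq V] [Fintype E] [DecidableEq E]

namespace MG

/-- One coordinate of inversion in the field with eight elements, in a self-dual basis. -/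
def inv8 (a b c : ZMod 2) : ZMod 2 := a + b + b * c

/-- Whether the point `s` lies in the pair of points attached to `(x, e)`. -/
def ch (x0 x1 x2 e0 e1 e2 s0 s1 s2 : ZMod 2) : ZMod 2 :=
  (1 + e0 + inv8 s0 s1 s2 + inv8 (s0 + x0) (s1 + x1) (s2 + x2)) *
  (1 + e1 + inv8 s1 s2 s0 + inv8 (s1 + x1) (s2 + x2) (s0 + x0)) *
  (1 + e2 + inv8 s2 s0 s1 + inv8 (s2 + x2) (s0 + x0) (s1 + x1))

lemma ch_three : ∀ x0 x1 x2 e0 e1 e2 : ZMod 2, x0 * e0 + x1 * e1 + x2 * e2 = 1 →
    ∀ y0 y1 y2 f0 f1 f2 : ZMod 2, y0 * f0 + y1 * f1 + y2 * f2 = 1 →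
    (x0 + y0) * (e0 + f0) + (x1 + y1) * (e1 + f1) + (x2 + y2) * (e2 + f2) = 1 →
    ∀ s0 s1 s2 : ZMod 2, ch x0 x1 x2 e0 e1 e2 s0 s1 s2 + ch y0 y1 y2 f0 f1 f2 s0 s1 s2 +
      ch (x0 + y0) (x1 + y1) (x2 + y2) (e0 + f0) (e1 + f1) (e2 + f2) s0 s1 s2 = 0 := by
  decide +kernel

lemma ch_two : ∀ x0 x1 x2 e0 e1 e2 : ZMod 2, x0 * e0 + x1 * e1 + x2 * e2 = 1 →
    ∑ s : ZMod 2 × ZMod 2 × ZMod 2,
      (if ch x0 x1 x2 e0 e1 e2 s.1 s.2.1 s.2.2 = 1 then (1 : ℤ) else 0) = 2 := by
  decide +kernel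

lemma ovoid : ∀ s0 s1 s2 t0 t1 t2 x0 x1 x2 k : ZMod 2, (x0 = 1 ∨ x1 = 1 ∨ x2 = 1) →
    s0 + t0 + k * x0 = 0 → s1 + t1 + k * x1 = 0 → s2 + t2 + k * x2 = 0 →
    k = (inv8 s0 s1 s2 + inv8 t0 t1 t2) * x0 + (inv8 s1 s2 s0 + inv8 t1 t2 t0) * x1 +
      (inv8 s2 s0 s1 + inv8 t2 t0 t1) * x2 := by
  decide +kernel

lemma bd_add (G : MG V E) (x y : E → ZMod 2) (w : V) : G.bd (x + y) w = G.bd x w + G.bd y w := by
  simp [bd, sum_add_distrib]

lemma bd_smul (G : MG V E) (c : ZMod 2) (x : E → ZMod 2) (w : V) :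
    G.bd (c • x) w = c * G.bd x w := by
  simp [bd, mul_sum]

/-- The dual flow. -/
lemma dual_flow (G : MG V E) (x : Fin 3 → E → ZMod 2) (hx : ∀ a, G.IsFlow (x a))
    (h1 : ∀ e, ∃ a, x a e = 1) : ∃ g : Fin 3 → E → ZMod 2, (∀ a, G.IsFlow (g a)) ∧
      ∀ e, x 0 e * g 0 e + x 1 e * g 1 e + x 2 e * g 2 e = 1 := by
  let T : (Fin 3 → E → ZMod 2) →ₗ[ZMod 2] ((Fin 3 × V) ⊕ E → ZMod 2) :=
    { toFun := fun g => Sum.elim (fun i => G.bd (g i.1) i.2) (fun e => ∑ a, x a e * g a e)
      map_add' := by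
        intro g g'; ext i
        rcases i with i | e
        · simp [bd_add]
        · simp [mul_add, sum_add_distrib]
      map_smul' := by
        intro c g; ext i
        rcases i with i | e
        · simp [bd_smul]
        · simp only [Sum.elim_inr, Pi.smul_apply, smul_eq_mul, RingHom.id_apply, mul_sum]
          exact sum_congr rfl fun a _ => by ring }
  obtain ⟨g, hg⟩ := fredholm T (Sum.elim (fun _ => 0) (fun _ => 1)) (by
    intro c hc
    have hz : ∀ a e, c (Sum.inl (a, G.en e false)) + c (Sum.inl (a, G.en e true)) +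
        c (Sum.inr e) * x a e = 0 := by
      intro a e
      have := hc (Pi.single a (Pi.single e 1))
      simp only [T, LinearMap.coe_mk, AddHom.coe_mk, Fintype.sum_sum_type, Sum.elim_inl,
        Sum.elim_inr, Fintype.sum_prod_type] at this
      rw [sum_eq_single a, sum_mul_bd G _ (fun w => c (Sum.inl (a, w))), sum_eq_single e,
        sum_eq_single e, sum_eq_single a] at this
      · simpa using this
      · intro b _ hb; simp [hb]
      · simp
      · intro f _ hf
        rw [sum_eq_zero, mul_zero]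
        intro b _
        by_cases hb : b = a
        · subst hb; simp [hf]
        · simp [hb]
      · simp
      · intro f _ hf; simp [hf]
      · simp
      · intro b _ hb; simp [hb, bd]
      · simp
    simp only [Fintype.sum_sum_type, Sum.elim_inl, Sum.elim_inr, mul_zero, sum_const_zero,
      zero_add, mul_one]
    let u : Fin 3 → V → ZMod 2 := fun a w =>
      inv8 (c (Sum.inl (a, w))) (c (Sum.inl (a + 1, w))) (c (Sum.inl (a + 2, w)))
    have h2 : ∀ a, ∑ e, (u a (G.en e false) + u a (G.en e true)) * x a e = 0 := by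
      intro a
      rw [← sum_mul_bd]
      exact sum_eq_zero fun w _ => by rw [(isFlow_iff z2 G _).1 (hx a) w, mul_zero]
    have h3 : ∀ e, c (Sum.inr e) = (u 0 (G.en e false) + u 0 (G.en e true)) * x 0 e +
        (u 1 (G.en e false) + u 1 (G.en e true)) * x 1 e +
        (u 2 (G.en e false) + u 2 (G.en e true)) * x 2 e := by
      intro e
      refine ovoid _ _ _ _ _ _ _ _ _ _ ?_ (hz 0 e) (hz 1 e) (hz 2 e)
      simpa [Fin.exists_fin_succ] using h1 e
    simp only [h3, sum_add_distrib, h2, add_zero])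
  refine ⟨g, fun a => (isFlow_iff z2 G _).2 fun w => congrFun hg (Sum.inl (a, w)), fun e => ?_⟩
  have := congrFun hg (Sum.inr e)
  simpa [T, Fin.sum_univ_three] using this

/-- The cubic graph obtained by replacing every vertex by a cycle through its half-edges. -/
def blow (σ : Equiv.Perm (E × Bool)) : MG (E × Bool) (E ⊕ (E × Bool)) :=
  ⟨fun e b => Sum.elim (fun e => (e, b)) (fun a => if b then σ a else a) e⟩

lemma bd_blow (σ : Equiv.Perm (E × Bool)) (y : E ⊕ (E × Bool) → ZMod 2) (w : E × Bool) :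
    (blow σ).bd y w = y (Sum.inl w.1) + y (Sum.inr w) + y (Sum.inr (σ.symm w)) := by
  obtain ⟨e, b⟩ := w
  simp only [bd, sum_filter, Fintype.sum_prod_type (α₁ := E ⊕ (E × Bool)), Fintype.sum_sum_type,
    Fintype.sum_bool, blow, Sum.elim_inl, Sum.elim_inr, sum_add_distrib]
  cases b <;> simp [← Equiv.eq_symm_apply] <;> ring

lemma exists_rot (G : MG V E) : ∃ σ : Equiv.Perm (E × Bool),
    (∀ a, G.en (σ a).1 (σ a).2 = G.en a.1 a.2) ∧
    ∀ X : Finset (E × Bool), (∀ a, a ∈ X ↔ σ a ∈ X) →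
      ∀ a b : E × Bool, G.en a.1 a.2 = G.en b.1 b.2 → a ∈ X → b ∈ X := by
  have := fun v : V => (univ.filter fun a : E × Bool => G.en a.1 a.2 = v).exists_cycleOn
  choose c hc _ using this
  have hm : ∀ v a, G.en a.1 a.2 = v → G.en (c v a).1 (c v a).2 = v := by
    intro v a ha
    simpa using (hc v).1.mapsTo (x := a) (by simpa using ha)
  let s : E × Bool → E × Bool := fun a => c (G.en a.1 a.2) a
  have hs : Function.Injective s := by
    intro a b hab
    have h1 : G.en a.1 a.2 = G.en b.1 b.2 := by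
      rw [← hm _ a rfl, ← hm _ b rfl]
      exact congrArg (fun a : E × Bool => G.en a.1 a.2) hab
    simp only [s, h1] at hab
    exact (c _).injective hab
  refine ⟨Equiv.ofBijective s (Finite.injective_iff_bijective.1 hs), fun a => hm _ a rfl, ?_⟩
  intro X hX a b hab ha
  obtain ⟨n, -, hn⟩ := (hc (G.en a.1 a.2)).exists_pow_eq (a := a) (b := b) (by simp) (by simp [hab])
  rw [← hn]
  have : ∀ n : ℕ, (c (G.en a.1 a.2) ^ n) a ∈ X ∧
      G.en ((c (G.en a.1 a.2) ^ n) a).1 ((c (G.en a.1 a.2) ^ n) a).2 = G.en a.1 a.2 := by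
    intro n
    induction n with
    | zero => exact ⟨ha, rfl⟩
    | succ n ih =>
      rw [pow_succ', Equiv.Perm.mul_apply]
      refine ⟨?_, hm _ _ ih.2⟩
      have := (hX _).1 ih.1
      simpa [s, ih.2] using this
  exact (this n).1

/-- Every bridgeless graph has a double cover by even subgraphs. -/
theorem cdc (G : MG V E) (hG : G.Bridgeless) : (fun _ => 2) ∈ G.Cov := by
  obtain ⟨σ, hσ, hcl⟩ := exists_rot G
  have hcut : ∀ X : Finset V, (blow σ).cut (univ.filter fun a => G.en a.1 a.2 ∈ X)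
      = (G.cut X).map Function.Embedding.inl := by
    intro X
    ext e
    rcases e with e | a
    · simp [mem_cut, blow]
    · simp [mem_cut, blow, hσ]
  have hb : (blow σ).Bridgeless := by
    intro X hX
    obtain ⟨e, he⟩ := card_eq_one.1 hX
    rcases e with e | a
    · have h1 : ∀ a, a ∈ X ↔ σ a ∈ X := by
        intro a
        have : Sum.inr a ∉ (blow σ).cut X := by rw [he]; simp
        simpa [mem_cut, blow] using this
      have h2 : X = univ.filter fun a => G.en a.1 a.2 ∈ X.image fun a => G.en a.1 a.2 := by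
        ext a
        simp only [mem_filter, mem_univ, true_and, mem_image]
        exact ⟨fun h => ⟨a, h, rfl⟩, fun ⟨b, hb, h⟩ => hcl X h1 b a h hb⟩
      rw [h2, hcut, card_map] at hX
      exact hG _ hX
    · have h1 : (blow σ).IsFlow (Sum.elim (fun _ => 0) (fun _ => 1) : _ → ZMod 2) := by
        rw [isFlow_iff z2]
        intro w
        simp [bd_blow, z2]
      have := h1 X
      rw [he] at this
      simp at this
  obtain ⟨x, hx, hx1⟩ := eight_flow _ hb
  obtain ⟨g, hg, hg1⟩ := dual_flow _ x hx hx1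
  let y : ZMod 2 × ZMod 2 × ZMod 2 → E ⊕ (E × Bool) → ZMod 2 := fun s e =>
    ch (x 0 e) (x 1 e) (x 2 e) (g 0 e) (g 1 e) (g 2 e) s.1 s.2.1 s.2.2
  have hy : ∀ s, (blow σ).IsFlow (y s) := by
    intro s
    rw [isFlow_iff z2]
    intro w
    have hv : ∀ a b c : ZMod 2, a + b + c = 0 → c = a + b := by decide
    have e1 : ∀ a, x a (Sum.inr (σ.symm w)) = x a (Sum.inl w.1) + x a (Sum.inr w) := fun a =>
      hv _ _ _ (by rw [← bd_blow]; exact (isFlow_iff z2 _ _).1 (hx a) w)
    have e2 : ∀ a, g a (Sum.inr (σ.symm w)) = g a (Sum.inl w.1) + g a (Sum.inr w) := fun a =>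
      hv _ _ _ (by rw [← bd_blow]; exact (isFlow_iff z2 _ _).1 (hg a) w)
    have e3 := hg1 (Sum.inr (σ.symm w))
    rw [bd_blow]
    simp only [y]
    simp only [e1, e2] at e3 ⊢
    exact ch_three _ _ _ _ _ _ (hg1 _) _ _ _ _ _ _ (hg1 _) e3 _ _ _
  have hy' : ∀ s, G.IsFlow (fun e => y s (Sum.inl e)) := by
    intro s X
    have := hy s (univ.filter fun a => G.en a.1 a.2 ∈ X)
    rw [hcut, sum_map] at this
    exact this
  have := AddSubmonoid.sum_mem G.Cov (t := univ) fun s _ => ind_mem (hy' s)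
  convert this using 1
  ext e
  rw [Finset.sum_apply]
  exact (ch_two _ _ _ _ _ _ (hg1 (Sum.inl e))).symm

end MG

end Pool.Agent.Flows
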