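import Pool.Agent.Lib.Flows.Basic

/-!
Edmonds' branching theorem (Lovasz's proof) for half-edges, and three spanning edge sets with
empty common intersection in a graph without cuts of size one or two.
-/

set_option autoImplicit false
set_option linter.unusedSectionVars false

namespace Pool.Agent.Flows

open Finset

variable {V E : Type} [Fintype V] [DecidableEq V] [Fintype E] [DecidableEq E]

namespace MG

/-- The arcs of `A` entering `X`; the arc `(e, b)` has head `en e b` and tail `en e (!b)`. -/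
def ent (G : MG V E) (A : Finset (E × Bool)) (X : Finset V) : Finset (E × Bool) :=
  A.filter fun a => G.en a.1 a.2 ∈ X ∧ G.en a.1 (!a.2) ∉ X

lemma mem_ent (G : MG V E) (A : Finset (E × Bool)) (X : Finset V) (a : E × Bool) :
    a ∈ G.ent A X ↔ a ∈ A ∧ G.en a.1 a.2 ∈ X ∧ G.en a.1 (!a.2) ∉ X := by
  simp [ent]

lemma ent_submod (G : MG V E) (A : Finset (E × Bool)) (X Y : Finset V) :
    (G.ent A (X ∩ Y)).card + (G.ent A (X ∪ Y)).card ≤ (G.ent A X).card + (G.ent A Y).card := by
  simp only [ent, card_filter, ← sum_add_distrib]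
  refine sum_le_sum fun a _ => ?_
  by_cases h1 : G.en a.1 a.2 ∈ X <;> by_cases h2 : G.en a.1 a.2 ∈ Y <;>
    by_cases h3 : G.en a.1 (!a.2) ∈ X <;> by_cases h4 : G.en a.1 (!a.2) ∈ Y <;>
    simp [h1, h2, h3, h4]

/-- Every nonempty vertex set missing the roots is entered by `k` arcs of `A`. -/
def InC (G : MG V E) (R : Finset V) (k : ℕ) (A : Finset (E × Bool)) : Prop :=
  ∀ X : Finset V, X.Nonempty → Disjoint X R → k ≤ (G.ent A X).card

lemma edmonds_step (G : MG V E) (R : Finset V) (k : ℕ) (A : Finset (E × Bool))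
    (hA : G.InC R (k + 1) A) (U : Finset V) (F : Finset (E × Bool)) (hRU : R ⊆ U)
    (hU : U ≠ univ) (hh : ∀ a ∈ F, G.en a.1 a.2 ∈ U) (hk : G.InC R k (A \ F)) :
    ∃ a ∈ A, G.en a.1 a.2 ∉ U ∧ G.en a.1 (!a.2) ∈ U ∧ G.InC R k (A \ insert a F) := by
  classical
  have hout : ∀ X : Finset V, Disjoint X U → G.ent (A \ F) X = G.ent A X := by
    intro X hX
    ext a
    simp only [mem_ent, mem_sdiff]
    constructor
    · rintro ⟨⟨h1, _⟩, h2⟩; exact ⟨h1, h2⟩
    · rintro ⟨h1, h2⟩
      exact ⟨⟨h1, fun h => disjoint_left.1 hX h2.1 (hh a h)⟩, h2⟩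
  have fin : ∀ a : E × Bool, (∀ Y : Finset V, Y.Nonempty → Disjoint Y R → G.en a.1 a.2 ∈ Y →
      G.en a.1 (!a.2) ∉ Y → k + 1 ≤ (G.ent (A \ F) Y).card) → G.InC R k (A \ insert a F) := by
    intro a ha Y hY hYR
    have he : G.ent (A \ insert a F) Y = (G.ent (A \ F) Y).erase a := by
      ext b
      simp only [mem_ent, mem_sdiff, mem_insert, mem_erase]
      tauto
    rw [he]
    by_cases hm : a ∈ G.ent (A \ F) Y
    · have := ha Y hY hYR ((mem_ent _ _ _ _).1 hm).2.1 ((mem_ent _ _ _ _).1 hm).2.2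
      rw [card_erase_of_mem hm]; omega
    · rw [erase_eq_of_notMem hm]; exact hk Y hY hYR
  let crit : Finset (Finset V) := univ.filter fun X =>
    Disjoint X R ∧ ¬ X ⊆ U ∧ (G.ent (A \ F) X).card ≤ k
  by_cases hc : crit.Nonempty
  · obtain ⟨X, hX, hmin⟩ := exists_min_image crit card hc
    simp only [crit, mem_filter, mem_univ, true_and] at hX hmin
    obtain ⟨hXR, hXU, hXk⟩ := hX
    have hne : (X \ U).Nonempty := by
      rw [sdiff_nonempty]; exact hXU
    have h1 : k + 1 ≤ (G.ent (A \ F) (X \ U)).card := by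
      rw [hout _ sdiff_disjoint]
      exact hA _ hne (hXR.mono_left sdiff_subset)
    have h2 : ¬ G.ent (A \ F) (X \ U) ⊆ G.ent (A \ F) X := fun h => by
      have := card_le_card h; omega
    obtain ⟨a, ha1, ha2⟩ := not_subset.1 h2
    simp only [mem_ent, mem_sdiff, not_and, not_not] at ha1 ha2
    obtain ⟨haA, ⟨hhX, hhU⟩, ht⟩ := ha1
    have htX : G.en a.1 (!a.2) ∈ X := ha2 haA hhX
    refine ⟨a, haA.1, hhU, ht htX, fin a fun Y hY hYR hhY htY => ?_⟩
    by_contra hlt
    have hsub := ent_submod G (A \ F) X Y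
    have hu := hk (X ∪ Y) (hY.mono subset_union_right) (disjoint_union_left.2 ⟨hXR, hYR⟩)
    have hi := hmin (X ∩ Y) ⟨hXR.mono_left inter_subset_left,
      fun h => hhU (h (mem_inter.2 ⟨hhX, hhY⟩)), by omega⟩
    have : (X ∩ Y).card < X.card := card_lt_card ⟨inter_subset_left,
      fun h => htY (mem_inter.1 (h htX)).2⟩
    omega
  · have hne : (Uᶜ).Nonempty := by
      rw [nonempty_iff_ne_empty]; intro h; apply hU; simpa using h
    have h1 := hA Uᶜ hne (disjoint_compl_left.mono_right hRU)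
    obtain ⟨a, ha⟩ : (G.ent A Uᶜ).Nonempty := card_pos.1 (by omega)
    simp only [mem_ent, mem_compl, not_not] at ha
    refine ⟨a, ha.1, ha.2.1, ha.2.2, fin a fun Y _ hYR hhY _ => ?_⟩
    by_contra hlt
    apply hc
    refine ⟨Y, ?_⟩
    simp only [crit, mem_filter, mem_univ, true_and]
    exact ⟨hYR, fun h => ha.2.1 (h hhY), by omega⟩

lemma edmonds_one (G : MG V E) (R : Finset V) (k : ℕ) (A : Finset (E × Bool))
    (hA : G.InC R (k + 1) A) : ∃ F ⊆ A, G.InC R 1 F ∧ G.InC R k (A \ F) := by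
  have main : ∀ n, ∀ (U : Finset V) (F : Finset (E × Bool)), Uᶜ.card = n → R ⊆ U → F ⊆ A →
      (∀ a ∈ F, G.en a.1 a.2 ∈ U) →
      (∀ X : Finset V, Disjoint X R → ¬ Disjoint X U → (G.ent F X).Nonempty) →
      G.InC R k (A \ F) → ∃ F ⊆ A, G.InC R 1 F ∧ G.InC R k (A \ F) := by
    intro n
    induction n using Nat.strong_induction_on with
    | _ n ih =>
      intro U F hn hRU hFA hh hsp hk
      by_cases hU : U = univ
      · refine ⟨F, hFA, fun X hX hXR => ?_, hk⟩
        apply card_pos.2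
        apply hsp X hXR
        subst hU
        obtain ⟨x, hx⟩ := hX
        exact fun h => disjoint_left.1 h hx (mem_univ x)
      · obtain ⟨a, haA, hhU, htU, hk'⟩ := edmonds_step G R k A hA U F hRU hU hh hk
        refine ih _ ?_ (insert (G.en a.1 a.2) U) (insert a F) rfl
          (hRU.trans (subset_insert _ _)) (insert_subset haA hFA) ?_ ?_ hk'
        · rw [← hn]
          apply card_lt_card
          refine ⟨compl_subset_compl.2 (subset_insert _ _), fun h => ?_⟩
          have := h (mem_compl.2 hhU)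
          simp at this
        · intro b hb
          rcases mem_insert.1 hb with rfl | hb
          · exact mem_insert_self _ _
          · exact mem_insert_of_mem (hh b hb)
        · intro X hXR hXU
          by_cases hd : Disjoint X U
          · refine ⟨a, (mem_ent _ _ _ _).2 ⟨mem_insert_self _ _, ?_, ?_⟩⟩
            · by_contra h
              exact hXU (disjoint_insert_right.2 ⟨h, hd⟩)
            · exact fun h => disjoint_left.1 hd h htU
          · obtain ⟨b, hb⟩ := hsp X hXR hd
            rw [mem_ent] at hb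
            exact ⟨b, (mem_ent _ _ _ _).2 ⟨mem_insert_of_mem hb.1, hb.2⟩⟩
  refine main _ R ∅ rfl Subset.rfl (empty_subset _) (by simp) (fun X h1 h2 => absurd h1 h2) ?_
  intro X hX hXR
  have := hA X hX hXR
  rw [sdiff_empty]; omega

lemma card_ent_univ (G : MG V E) (X : Finset V) : (G.ent univ X).card = (G.cut X).card := by
  simp only [ent, cut, card_filter, Fintype.sum_prod_type, Fintype.sum_bool]
  refine sum_congr rfl fun e _ => ?_
  by_cases h1 : G.en e false ∈ X <;> by_cases h2 : G.en e true ∈ X <;> simp [h1, h2]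

/-- One root in every component. -/
lemma exists_roots (G : MG V E) : ∃ R : Finset V,
    (∀ X : Finset V, X.Nonempty → Disjoint X R → (G.cut X).Nonempty) ∧
    (∀ X : Finset V, (G.cut X).Nonempty →
      ∃ Y : Finset V, Y.Nonempty ∧ Disjoint Y R ∧ G.cut Y ⊆ G.cut X) := by
  classical
  let s : Setoid V :=
    { r := fun x y => ∀ X : Finset V, G.cut X = ∅ → (x ∈ X ↔ y ∈ X)
      iseqv := ⟨fun _ _ _ => Iff.rfl, fun h X hX => (h X hX).symm,
        fun h1 h2 X hX => (h1 X hX).trans (h2 X hX)⟩ }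
  let ρ : V → V := fun x => (Quotient.mk s x).out
  have hρ : ∀ x, s.r (ρ x) x := fun x => Quotient.mk_out (s := s) x
  have hρ2 : ∀ x y, s.r x y → ρ x = ρ y := fun x y h => by
    simp only [ρ]; rw [Quotient.sound (s := s) h]
  have hedge : ∀ e, s.r (G.en e false) (G.en e true) := by
    intro e X hX
    have : e ∉ G.cut X := by simp [hX]
    simpa [mem_cut] using this
  refine ⟨univ.filter fun x => ρ x = x, ?_, ?_⟩
  · rintro X ⟨x, hx⟩ hXR
    rw [nonempty_iff_ne_empty]
    intro h
    have h1 : ρ x ∈ X := (hρ x X h).2 hx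
    exact disjoint_left.1 hXR h1 (by simpa using hρ2 _ _ (hρ x))
  · rintro X ⟨e, he⟩
    let r := ρ (G.en e false)
    refine ⟨univ.filter fun x => ρ x = r ∧ ¬ (x ∈ X ↔ r ∈ X), ?_, ?_, ?_⟩
    · rw [mem_cut] at he
      by_cases h : (G.en e false ∈ X ↔ r ∈ X)
      · refine ⟨G.en e true, ?_⟩
        simp only [mem_filter, mem_univ, true_and]
        exact ⟨(hρ2 _ _ (hedge e)).symm, fun h' => he (h.trans h'.symm)⟩
      · exact ⟨G.en e false, by simpa [r] using h⟩
    · rw [disjoint_left]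
      intro x hx hx'
      simp only [mem_filter, mem_univ, true_and] at hx hx'
      apply hx.2
      rw [← hx.1, hx']
    · intro f hf
      simp only [mem_cut, mem_filter, mem_univ, true_and] at hf ⊢
      rw [hρ2 _ _ (hedge f)] at hf
      tauto

/-- Roots and three rooted spanning edge sets, the edge `e` avoiding the set number `b e`. -/
lemma three_trees (G : MG V E) (h3 : G.Three) : ∃ (R : Finset V) (b : E → Fin 3),
    (∀ X : Finset V, (G.cut X).Nonempty →
      ∃ Y : Finset V, Y.Nonempty ∧ Disjoint Y R ∧ G.cut Y ⊆ G.cut X) ∧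
    ∀ (i : Fin 3) (X : Finset V), X.Nonempty → Disjoint X R → ∃ e ∈ G.cut X, b e ≠ i := by
  classical
  obtain ⟨R, hR1, hR2⟩ := exists_roots G
  have hA : G.InC R (2 + 1) univ := by
    intro X hX hXR
    rw [card_ent_univ]
    have := card_pos.2 (hR1 X hX hXR)
    have := h3 X
    omega
  obtain ⟨F0, -, h0, hA1⟩ := edmonds_one G R 2 univ hA
  obtain ⟨F1, hF1, h1, h2⟩ := edmonds_one G R 1 _ hA1
  let F : Fin 3 → Finset (E × Bool) := ![F0, F1, (univ \ F0) \ F1]
  have hF : ∀ i, G.InC R 1 (F i) := by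
    intro i; fin_cases i
    · exact h0
    · exact h1
    · exact h2
  have hb : ∀ e : E, ∃ i : Fin 3, ∀ c, (e, c) ∉ F i := by
    intro e
    have hd : ∀ a, a ∈ F1 → a ∉ F0 := fun a ha => (mem_sdiff.1 (hF1 ha)).2
    have hd1 := hd (e, false)
    have hd2 := hd (e, true)
    simp only [Fin.exists_fin_succ, Bool.forall_bool, F]
    simp
    tauto
  choose b hb using hb
  refine ⟨R, b, hR2, fun i X hX hXR => ?_⟩
  obtain ⟨a, ha⟩ : (G.ent (F i) X).Nonempty := card_pos.1 (hF i X hX hXR)
  rw [mem_ent] at ha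
  refine ⟨a.1, ?_, fun h => hb a.1 a.2 (by rw [h]; exact ha.1)⟩
  rw [mem_cut]
  obtain ⟨e, c⟩ := a
  cases c <;> simp_all

end MG

end Pool.Agent.Flows
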